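import Mathlib

/-!
# Markov numbers: the multiplicity is `O((log log m)²)`. The pieces.

Every piece is a closed proposition `S_XXX` with its proof in the comment. Hand it in as
`theorem t_XXX : S_XXX` in `Pool/Agent/Run7/h641/MK/<PIECE>.lean`, importing this file, in the namespace
`Pool.Agent.Run7.h641.MK.<PIECE>`.

Markov numbers `m w` are attached to the primitive vectors `w` of the quadrant (`m (1,0) = m (0,1) = 1`,
`m (1,1) = 2`, `m (2,1) = m (1,2) = 5`, …); `t w = arcosh (3 m(w) / 2)` is half the length of a simple closed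
geodesic of the modular torus. `α u + β v = w` for a basis `u, v` of determinant `1` iff
`α = det w v`, `β = det u w`.
-/

set_option autoImplicit false

namespace Pool.Agent.Run7.h641.MK

/-- the determinant -/
def det (u v : ℤ × ℤ) : ℤ := u.1 * v.2 - u.2 * v.1

/-- the closed quadrant -/
def Q (u : ℤ × ℤ) : Prop := 0 ≤ u.1 ∧ 0 ≤ u.2

/-- a basis of determinant `1` in the quadrant -/
def B (u v : ℤ × ℤ) : Prop := Q u ∧ Q v ∧ det u v = 1

/-- PIECE TR (Stern-Brocot induction). Proof: induction on `u.1 + u.2 + v.1 + v.2`. If `B u v` and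
`(u, v) ≠ ((1,0), (0,1))` then `u - v` or `v - u` is in the quadrant (otherwise, say, `u.1 > v.1` and
`u.2 < v.2`, so `det u v ≥ (v.1 + 1)(u.2 + 1) - u.2 v.1 ≥ 1` with equality only for `u.2 = v.1 = 0`;
`u.1 < v.1`, `u.2 > v.2` gives a negative determinant), and `B (u - v) v` or `B u (v - u)`. -/
def S_TR : Prop := ∀ P : ℤ × ℤ → ℤ × ℤ → Prop, P (1, 0) (0, 1) →
  (∀ u v, B u v → P u v → P u (u + v) ∧ P (u + v) v) → ∀ u v, B u v → P u v

/-- PIECE PA (parents). Proof. Existence: for `w = (p, q)` coprime, `p, q ≥ 1`, there is `u` with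
`det u w = 1` and `0 ≤ u.1 ≤ p`, `0 ≤ u.2 ≤ q` (`a q - b p = 1` with `1 ≤ a ≤ p`), `v = w - u`. Uniqueness: the
difference of two solutions `u` of `det u w = 1` is a multiple `k w`; `0 ≤ u.1 ≤ p`, `0 ≤ u.2 ≤ q` for both and
`k ≠ 0` imply `{u, u'} = {0, w}`, impossible (`det 0 w = det w w = 0`). -/
def S_PA : Prop := (∀ w : ℤ × ℤ, 1 ≤ w.1 → 1 ≤ w.2 → IsCoprime w.1 w.2 → ∃ u v, B u v ∧ u + v = w) ∧
  ∀ u v u' v', B u v → B u' v' → u + v = u' + v' → u = u' ∧ v = v'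

/-- the labelling of the primitive vectors of the quadrant by Markov numbers -/
structure IsM (m : ℤ × ℤ → ℤ) : Prop where
  e1 : m (1, 0) = 1
  e2 : m (0, 1) = 1
  e12 : m (1, 1) = 2
  left : ∀ u v, B u v → m (u + (u + v)) + m v = 3 * m u * m (u + v)
  right : ∀ u v, B u v → m ((u + v) + v) + m u = 3 * m v * m (u + v)

/-- PIECE EX. Existence of the labelling. Proof: well-founded recursion on `w.1 + w.2` (or recursion on fuel
`n`, with stability for `n ≥ w.1 + w.2`): `m (1,0) = m (0,1) = 1`, `m (1,1) = 2`, and for `w = u + v` with the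
parents `u, v` (`S_PA`), `w ≠ (1,1)`, `m w = 3 m u m v - m d`, where `d = u - v` or `d = v - u`, whichever is in the
quadrant. The parents of `u + (u + v)` are `u, u + v` with the difference `v`, so `left` is the definition;
also `right`. -/
def S_EX : Prop := S_PA → ∃ m, IsM m

/-- PIECE VI. Proof: `S_TR`. Base: `1, 1, 2`. Step to `(u, u + v)`: `m (u + (u + v)) = 3 m u m (u + v) - m v`, all the
inequalities are immediate, the equation is Vieta's. The same for `(u + v, v)`. -/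
def S_VI : Prop := S_TR → ∀ m, IsM m → ∀ u v, B u v →
  1 ≤ m u ∧ 1 ≤ m v ∧ m u < m (u + v) ∧ m v < m (u + v) ∧ 3 * m u * m v < 2 * m (u + v) ∧
    m u ^ 2 + m v ^ 2 + m (u + v) ^ 2 = 3 * m u * m v * m (u + v)

/-- PIECE SU. Every Markov triple is in the tree. Proof: strong induction on `z`. If `y = z` then
`z² (3 x - 2) = x²`, so `z = 1`. Let `y < z`. If `y = 1` then `x = 1`, `z = 2` (`z² - 3 z + 2 = 0`): `u = (1,0)`, `v = (0,1)`.
If `y ≥ 2` let `z' = 3 x y - z`: `z z' = x² + y²`, so `z' ≥ 1`, and `(z - y)(z' - y) = x² + 2 y² - 3 x y² ≤ 0`, so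
`z' ≤ y`; `(x, z', y)` is a triple with the maximum `y < z`, `y ≥ 2`. By induction `m (u + v) = y` and
`{m u, m v} = {x, z'}`. If `m u = x` take `(u, u + v)`, otherwise `(u + v, v)`. -/
def S_SU : Prop := ∀ m, IsM m → ∀ x y z : ℤ, 1 ≤ x → x ≤ y → y ≤ z → x ^ 2 + y ^ 2 + z ^ 2 = 3 * x * y * z →
  z = 1 ∨ ∃ u v, B u v ∧ m (u + v) = z ∧ ((m u = x ∧ m v = y) ∨ (m u = y ∧ m v = x))

/-- the larger root of `λ + 1/λ = x` -/
noncomputable def lam (x : ℝ) : ℝ := (x + Real.sqrt (x ^ 2 - 4)) / 2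

/-- half the length of the geodesic -/
noncomputable def t (m : ℤ × ℤ → ℤ) (w : ℤ × ℤ) : ℝ := Real.log (lam (3 * m w))

/-- PIECE LG. `lam`. Proof: the last claim: `lam (a + b) + 1 / lam (a + b) = a + b > a + 1/a`, and `x + 1/x` is
increasing for `x ≥ 1`; if `a ≤ 1` then `log a ≤ 0 < log (lam _)`. The bound `log (lam 3) ≥ 96/100`:
`lam 3 = (3 + √5)/2 ≥ 2.618`. -/
def S_LG : Prop := (∀ x : ℝ, 2 < x → 1 < lam x ∧ lam x + 1 / lam x = x ∧ lam x < x) ∧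
  (∀ x y : ℝ, 2 < x → x ≤ y → lam x ≤ lam y) ∧
  (∀ x : ℝ, 3 ≤ x → 96 / 100 ≤ Real.log (lam x)) ∧
  ∀ a b : ℝ, 0 < a → 0 < b → 1 < a * b → Real.log a < Real.log (lam (a + b))

/-- PIECE SEQ. Proof: let `l = lam X > 1`, `X = l + 1/l`, `A = (x 1 - x 0 / l) / (l - 1/l)`,
`C = (x 0 l - x 1) / (l - 1/l)`; the formula for `x j` holds for `j = 0, 1` and so for all `j`;
`A C (l - 1/l)² = X x 0 x 1 - x 0² - x 1² = X²` and `(l - 1/l)² = X² - 4`. `A C > 0` and `A + C = x 0 > 0`. -/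
def S_SEQ : Prop := ∀ X : ℝ, 2 < X → ∀ x : ℕ → ℝ, (∀ j, x (j + 2) + x j = X * x (j + 1)) → 0 < x 0 →
  x 0 ^ 2 + x 1 ^ 2 + X ^ 2 = X * x 0 * x 1 →
  ∃ A C : ℝ, 0 < A ∧ 0 < C ∧ A * C = X ^ 2 / (X ^ 2 - 4) ∧ 1 < A * C ∧
    ∀ j, x j = A * lam X ^ j + C / lam X ^ j

/-- PIECE ET. Proof. `κ = A C ≤ 9/5`. `A ≥ 21/10`: otherwise `A ∈ [√κ, 21/10)` and
`A + κ/A ≤ max (2 √κ) (2.1 + κ/2.1) < 3` (or: `(A - C)² = Y² - 4 κ ≥ 9/5`, so `A - C ≥ 1.34`, `A ≥ 2.17`). Then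
`log A ≥ log 2 + (1 - 2/2.1) ≥ 71/100`. Let `l = lam Y = (Y + √(Y² - 4))/2`, `A = (Y + √(Y² - 4 κ))/2`,
`l - A = 2 (κ - 1) / (√(Y²-4) + √(Y²-4κ)) ≤ 8 / ((X² - 4) √(Y² - 4)) ≤ 19.4 / (X² Y)` (`X² - 4 ≥ (5/9) X²`,
`√(Y² - 4) ≥ (√5/3) Y`), `l ≥ 0.872 Y`, so `δ = (l - A)/l ≤ 22.3/(X Y)² ≤ 0.276` and
`log l - log A = - log (1 - δ) ≤ δ / (1 - δ)`. If the constant `26` is too tight with this estimate, use
`- log (1 - δ) ≤ δ + δ² / (2 (1 - δ))`, or `(l - A)/A` with `log (l/A) ≤ (l - A)/A`, `A ≥ 0.72 Y`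
(then prove the inequality with another exact treatment; the claim is true with room: the worst case is
`X = Y = 3`, where the difference is `0.187` and `26/81 = 0.32`). -/
def S_ET : Prop := ∀ X Y A C : ℝ, 3 ≤ X → 3 ≤ Y → 0 < C → C ≤ A → A + C = Y → A * C = X ^ 2 / (X ^ 2 - 4) →
  71 / 100 ≤ Real.log A ∧ Real.log (lam Y) - 26 / (X * Y) ^ 2 ≤ Real.log A

/-- the local inequality -/
def LI (f : ℤ × ℤ → ℝ) : Prop := ∀ a w b, Q a → Q w → Q b → det a w = 1 → det w b = 1 →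
  (det a b : ℝ) * f w < f a + f b

/-- PIECE LI. Proof. `w` has positive coordinates (`det a w = 1`, `det w b = 1`), let `u, v` be its parents:
`det u w = 1`, `det w v = 1`, so `a = u + i w`, `b = v + j w` with `i, j ≥ 0` (`a - u` is a multiple of `w`, and `a`
is in the quadrant while `u - w = - v` is not), `det a b = i + j + 1 =: k`. The sequence `x` of the numbers `3 m`
at `u + i w, …, u + w, u, v, v + w, …, v + j w, …` satisfies the hypotheses of `S_SEQ` with `X = 3 m w`: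
`left`, `right` for `(u, v)` and `right` for `(u + n w, w)`, `left` for `(w, v + n w)`, and the equation of
`S_VI`. So `x 0 = A + C`, `x k = A l^k + C / l^k`, `t a > log C`, `t b > log (A l^k)` (`S_LG`), and the sum is
more than `log (A C) + k t w > k t w`. -/
def S_LI : Prop := S_PA → S_LG → S_SEQ → (∀ m, IsM m → ∀ u v, B u v →
  1 ≤ m u ∧ 1 ≤ m v ∧ m u < m (u + v) ∧ m v < m (u + v) ∧ 3 * m u * m v < 2 * m (u + v) ∧
    m u ^ 2 + m v ^ 2 + m (u + v) ^ 2 = 3 * m u * m v * m (u + v)) → ∀ m, IsM m → LI (t m)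

/-- PIECE LB. Proof. First part: `x j = 3 m (v + j u)` satisfies the hypotheses of `S_SEQ` with `X = 3 m u`
(`left` for `(u, v + j u)`). `A ≥ C` since `x 1 = 3 m (u + v) > (3 m u) (3 m v) / 2 = X x 0 / 2`. Take `a = log A`, `S_ET`
with `Y = 3 m v` and the last part of `S_LG`. The second part is the same with `x j = 3 m (u + j v)`. -/
def S_LB : Prop := S_LG → S_SEQ → S_ET → (∀ m, IsM m → ∀ u v, B u v →
  1 ≤ m u ∧ 1 ≤ m v ∧ m u < m (u + v) ∧ m v < m (u + v) ∧ 3 * m u * m v < 2 * m (u + v) ∧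
    m u ^ 2 + m v ^ 2 + m (u + v) ^ 2 = 3 * m u * m v * m (u + v)) → ∀ m, IsM m → ∀ u v, B u v →
  (∃ a : ℝ, 71 / 100 ≤ a ∧ t m v - 26 / ((3 * m u) * (3 * m v)) ^ 2 ≤ a ∧
    ∀ j : ℕ, j * t m u + a ≤ t m (v + (j : ℤ) • u)) ∧
  (∃ a : ℝ, 71 / 100 ≤ a ∧ t m u - 26 / ((3 * m u) * (3 * m v)) ^ 2 ≤ a ∧
    ∀ j : ℕ, j * t m v + a ≤ t m (u + (j : ℤ) • v))

/-- the inequality for bases -/
def ST1 (f : ℤ × ℤ → ℝ) : Prop := ∀ a w b, Q a → Q w → Q b → IsCoprime b.1 b.2 → det a w = 1 →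
  1 ≤ det w b → (det a b : ℝ) * f w < det w b * f a + f b

/-- the mirror image -/
def ST2 (f : ℤ × ℤ → ℝ) : Prop := ∀ a w b, Q a → Q w → Q b → IsCoprime a.1 a.2 → 1 ≤ det a w →
  det w b = 1 → (det a b : ℝ) * f w < f a + det a w * f b

/-- strict convexity -/
def CV (f : ℤ × ℤ → ℝ) : Prop := ∀ a w b, Q a → Q w → Q b → IsCoprime a.1 a.2 → IsCoprime w.1 w.2 →
  IsCoprime b.1 b.2 → 1 ≤ det a w → 1 ≤ det w b →
  (det a b : ℝ) * f w < det w b * f a + det a w * f b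

/-- PIECE CH. Proof. `ST1`: strong induction on `e = det w b`. `e = 1` is `LI`. Let `e ≥ 2`, `d = det a b`
(`d w = e a + b`), `k = ⌈d / e⌉`, `w' = k w - a`, so `det w w' = 1`, `det a w' = k`, `e' = det w' b = k e - d`, `0 ≤ e' < e`,
`e w' = e' w + b`, so `w'` is in the quadrant, and `e' ≥ 1` (otherwise `b = e w'` is not primitive). `LI` for
`(a, w, w')`: `k f w < f a + f w'`; induction for `(w, w', b)`: `e f w' < e' f w + f b` (`det w b = e`). Together: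
`f b > e (k f w - f a) - e' f w = d f w - e f a`. `ST2` is the mirror image (swap the coordinates: apply `ST1` to
`f ∘ swap`, `swap b, swap w, swap a`). `CV`: let `D = det a w`, `e = det w b`. If `D = 1` this is `ST1`. Otherwise
there is `a'` in the quadrant with `det a' w = 1` and `0 < e' = det a a' < D` (`a' = a'_0 + j w`;
`D a' = a + e' w`; `e' ≠ 0` since `a` is primitive). `ST2` for `(a, a', w)`: `det a w = D`,
`D f a' < f a + e' f w`. `ST1` for `(a', w, b)`: `det a' b f w < e f a' + f b`. Multiply by `D`: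
`D f b > D det a' b f w - e (f a + e' f w)`, and `D det a' b - e e' = det (D a' - e' w) b = det a b`. -/
def S_CH : Prop := ∀ f : ℤ × ℤ → ℝ, LI f → ST1 f ∧ ST2 f ∧ CV f

/-- PIECE LBC. Proof. Let `α = det w v ≥ 0`, `β = det u w ≥ 1`, `w = α u + β v`. For a natural number `j` with
`e = j β - α ≥ 1` apply `ST1` to `(u, v + j u, w)`: `det u (v + j u) = 1`, `det (v + j u) w = e`, so
`β f (v + j u) < e f u + f w`, and `f (v + j u) ≥ j f u + a`. The second part: `ST2` for `(w, u + j v, v)`,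
`det (u + j v) v = 1`, `det w (u + j v) = j α - β`. -/
def S_LBC : Prop := ∀ f : ℤ × ℤ → ℝ, ST1 f → ST2 f → ∀ u v, B u v → ∀ a : ℝ,
  ((∀ j : ℕ, j * f u + a ≤ f (v + (j : ℤ) • u)) → ∀ w, Q w → IsCoprime w.1 w.2 → 0 ≤ det w v →
    1 ≤ det u w → (det w v : ℝ) * f u + det u w * a ≤ f w) ∧
  ((∀ j : ℕ, j * f v + a ≤ f (u + (j : ℤ) • v)) → ∀ w, Q w → IsCoprime w.1 w.2 → 1 ≤ det w v →
    0 ≤ det u w → (det w v : ℝ) * a + det u w * f v ≤ f w)

/-- PIECE CO. At most two points of a level set in a small cone. Proof. Let `w_i = α_i u + β_i v`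
(`α_i = det w_i v ≥ 1`, `β_i = det u w_i ≥ 1`), `w_2 = w_1 - x u + y v`, `w_3 = w_2 - x' u + y' v`.
(1) `CV` for `(u, w_1, w_2)`: `β_2 L < D f u + β_1 L`, `D = det w_1 w_2 = α_1 y + β_1 x`, so
`y L < (α_1 y + β_1 x) f u`. (2) `CV` for `(w_1, w_2, v)`: `α_1 L < α_2 L + D f v`, `D = α_2 y + β_2 x`, so
`x L < (α_2 y + β_2 x) f v`. And `L ≥ α_i f u + β_i a`, `L ≥ α_i a' + β_i f v`. If `y ≤ 0` then `x > 0` (`D > 0`) and (2) gives
`L < β_2 f v`, a contradiction. So `y > 0`, (1) gives `y a < x f u`, so `x > 0`, and (2) gives `x a' < y f v`. The same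
for `x', y'`. (3) `CV` for `(w_1, w_2, w_3)`: `det w_1 w_3 < det w_2 w_3 + det w_1 w_2` (`L > 0`), that is
`x' y - x y' ≥ 1`. So `1 ≤ x' y - x y' < y y' (f v / a' - a / f u) = y y' (f u f v - a a') / (a' f u)`, and
`f u f v - a a' ≤ η (f u + f v)` with `η = 26 exp (-2 (f u + f v))` (`a ≥ f v - η`, `a' ≥ f u - η`).
`y + y' ≤ β_3 ≤ L / a`, so `y y' ≤ L² / (4 a²)`. With `s = f u + f v`: `1 < L² 26 s exp (-2 s) / (4 a² a' f u)`,
`4 a² a' f u ≥ 4 (0.71)³ 0.96 ≥ 1.374`, `s exp (-s) ≤ exp (-1)`, `exp (-s) ≤ exp (-2) / L²`: the right side is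
at most `26 exp (-3) / 1.374 < 0.943`. -/
def S_CO : Prop := ∀ f : ℤ × ℤ → ℝ, CV f → ∀ u v, B u v → ∀ a a' L : ℝ, 71 / 100 ≤ a → 71 / 100 ≤ a' →
  96 / 100 ≤ f u → 96 / 100 ≤ f v → 0 < L →
  f v - 26 * Real.exp (-2 * (f u + f v)) ≤ a → f u - 26 * Real.exp (-2 * (f u + f v)) ≤ a' →
  (∀ w, Q w → IsCoprime w.1 w.2 → 1 ≤ det w v → 1 ≤ det u w →
    (det w v : ℝ) * f u + det u w * a ≤ f w ∧ (det w v : ℝ) * a' + det u w * f v ≤ f w) →
  2 * Real.log L + 2 ≤ f u + f v → ∀ w1 w2 w3 : ℤ × ℤ,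
  (∀ w ∈ ({w1, w2, w3} : Finset (ℤ × ℤ)), Q w ∧ IsCoprime w.1 w.2 ∧ 1 ≤ det w v ∧ 1 ≤ det u w ∧ f w = L) →
  1 ≤ det w1 w2 → 1 ≤ det w2 w3 → False

/-- PIECE CT (counting in the tree). Proof. For `B u v` let `P(u,v)`, `G(u,v)` be the sets of the `w` in `P`, `G` with
`0 < det u w`, `0 < det w v` (open cone). Claim: `#P(u,v) ≤ 2 + 3 #G(u,v)`, by strong induction on `#G(u,v)`. If
`K ≤ s u + s v` then `#P(u,v) ≤ 2`: three different primitive vectors of the quadrant can be ordered with positive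
determinants (`det w w' = 0` implies `w = w'`). Otherwise `u + v ∈ G(u,v)`, and `G(u,v)` contains the disjoint
sets `G(u,u+v)`, `{u+v}`, `G(u+v,v)`, while `P(u,v)` is contained in the union of `P(u,u+v)`, `{u+v}`, `P(u+v,v)`
(`det w (u+v) = det w v - det u w`; if this is `0` then `w = u + v`). So
`#P(u,v) ≤ 2 + 3 g₁ + 1 + 2 + 3 g₂ ≤ 5 + 3 (#G(u,v) - 1)`. Take `u = (1,0)`, `v = (0,1)`. -/
def S_CT : Prop := ∀ (s : ℤ × ℤ → ℝ) (K : ℝ) (G P : Finset (ℤ × ℤ)),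
  (∀ u v, B u v → s u + s v < K → u + v ∈ G) →
  (∀ w ∈ P, 1 ≤ w.1 ∧ 1 ≤ w.2 ∧ IsCoprime w.1 w.2) →
  (∀ u v, B u v → K ≤ s u + s v → ∀ w1 ∈ P, ∀ w2 ∈ P, ∀ w3 ∈ P,
    (∀ w ∈ ({w1, w2, w3} : Finset (ℤ × ℤ)), 1 ≤ det w v ∧ 1 ≤ det u w) →
    1 ≤ det w1 w2 → 1 ≤ det w2 w3 → False) →
  P.card ≤ 2 + 3 * G.card

/-- PIECE GC. Proof: for `p + q = n` there are `n - 1` pairs, so the number of pairs is at most
`∑_{n ≤ N} (n - 1) = N (N - 1) / 2` with `N = ⌊K / 0.71⌋`, and `(1/0.71)² / 2 < 1`. The finset: the pairs in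
`Finset.Icc 1 N ×ˢ Finset.Icc 1 N` with the property. -/
def S_GC : Prop := ∀ K : ℝ, 0 ≤ K → ∃ G : Finset (ℤ × ℤ), (G.card : ℝ) ≤ K ^ 2 ∧
  ∀ w : ℤ × ℤ, 1 ≤ w.1 → 1 ≤ w.2 → (71 / 100 : ℝ) * (w.1 + w.2) < K → w ∈ G

end Pool.Agent.Run7.h641.MK
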